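import Pool.Agent.H123.SUDG.Kill

/-!
# The topological part: rotation numbers of the odd map `a ↦ p a - p (n a)`
-/

set_option autoImplicit false

namespace Pool.Agent.H123.SUDG

/-- the odd map -/
def Fv {V : Type} (n : V → V) (p : V → ℂ) (a : V) : ℂ := p a - p (n a)

/-- rotation along the pair `a b` -/
noncomputable def E {V : Type} (n : V → V) (p : V → ℂ) (a b : V) : ℝ :=
  Complex.arg (Fv n p b / Fv n p a)

theorem im_div (x y : ℂ) : (y / x).im = cr x y / Complex.normSq x := by
  rw [Complex.div_im]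
  unfold cr
  ring

theorem cr_pos_of_arg {x y : ℂ} (h0 : 0 < Complex.arg (y / x)) (hpi : Complex.arg (y / x) ≠ Real.pi) :
    0 < cr x y := by
  have h1 : 0 ≤ (y / x).im := Complex.arg_nonneg_iff.1 h0.le
  have h2 : (y / x).im ≠ 0 := by
    intro h
    rcases lt_or_ge (y / x).re 0 with hr | hr
    · exact hpi (Complex.arg_eq_pi_iff.2 ⟨hr, h⟩)
    · exact h0.ne' (Complex.arg_eq_zero_iff_zero_le.2 (by
        rw [Complex.le_def]; exact ⟨hr, h.symm⟩))
  have h3 : 0 < (y / x).im := lt_of_le_of_ne h1 (Ne.symm h2)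
  rw [im_div] at h3
  have h4 : 0 ≤ Complex.normSq x := Complex.normSq_nonneg x
  by_contra hcon
  push Not at hcon
  have := div_nonpos_of_nonpos_of_nonneg hcon h4
  linarith

theorem cr_neg_of_arg {x y : ℂ} (h0 : Complex.arg (y / x) < 0) : cr x y < 0 := by
  have h1 : (y / x).im < 0 := Complex.arg_neg_iff.1 h0
  rw [im_div] at h1
  have h4 : 0 ≤ Complex.normSq x := Complex.normSq_nonneg x
  by_contra hcon
  push Not at hcon
  have := div_nonneg hcon h4
  linarith

theorem tri_zero_of_pos {x y z : ℂ} (h1 : 0 < cr x y) (h2 : 0 < cr y z) (h3 : 0 < cr z x) :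
    Tri x y z 0 := by
  set s := cr y z + cr z x + cr x y with hs
  have hs0 : 0 < s := by positivity
  refine ⟨cr y z / s, cr z x / s, cr x y / s, by positivity, by positivity, by positivity, ?_, ?_⟩
  · field_simp
    rw [hs]
  · have hsc : (s : ℂ) ≠ 0 := by exact_mod_cast hs0.ne'
    have : ((cr y z : ℝ) : ℂ) * x + ((cr z x : ℝ) : ℂ) * y + ((cr x y : ℝ) : ℂ) * z = 0 := by
      apply Complex.ext
      · simp only [Complex.add_re, Complex.re_ofReal_mul, Complex.zero_re]
        unfold cr; ring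
      · simp only [Complex.add_im, Complex.im_ofReal_mul, Complex.zero_im]
        unfold cr; ring
    push_cast
    field_simp
    linear_combination -this

theorem cr_anti (x y : ℂ) : cr y x = - cr x y := by unfold cr; ring

theorem tri_zero_of_neg {x y z : ℂ} (h1 : cr x y < 0) (h2 : cr y z < 0) (h3 : cr z x < 0) :
    Tri x y z 0 := by
  have h1' : 0 < cr y x := by rw [cr_anti]; linarith
  have h2' : 0 < cr z y := by rw [cr_anti]; linarith
  have h3' : 0 < cr x z := by rw [cr_anti]; linarith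
  exact (tri_zero_of_pos h1' h3' h2').swap

/-- three rotations summing to a multiple of `2 π` -/
theorem sum_zero {x y z : ℂ} (hx : x ≠ 0) (hy : y ≠ 0) (hz : z ≠ 0)
    (a1 : Complex.arg (y / x) ≠ Real.pi) (a2 : Complex.arg (z / y) ≠ Real.pi)
    (a3 : Complex.arg (x / z) ≠ Real.pi) (h : ¬ Tri x y z 0) :
    Complex.arg (y / x) + Complex.arg (z / y) + Complex.arg (x / z) = 0 := by
  have b1 := Complex.neg_pi_lt_arg (y / x)
  have b2 := Complex.neg_pi_lt_arg (z / y)
  have b3 := Complex.neg_pi_lt_arg (x / z)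
  have c1 : Complex.arg (y / x) < Real.pi := lt_of_le_of_ne (Complex.arg_le_pi _) a1
  have c2 : Complex.arg (z / y) < Real.pi := lt_of_le_of_ne (Complex.arg_le_pi _) a2
  have c3 : Complex.arg (x / z) < Real.pi := lt_of_le_of_ne (Complex.arg_le_pi _) a3
  have hang : ((Complex.arg (y / x) + Complex.arg (z / y) + Complex.arg (x / z) : ℝ) : Real.Angle)
      = ((0 : ℝ) : Real.Angle) := by
    rw [Real.Angle.coe_add, Real.Angle.coe_add,
      ← Complex.arg_mul_coe_angle (div_ne_zero hy hx) (div_ne_zero hz hy),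
      ← Complex.arg_mul_coe_angle (mul_ne_zero (div_ne_zero hy hx) (div_ne_zero hz hy))
        (div_ne_zero hx hz)]
    have : y / x * (z / y) * (x / z) = 1 := by field_simp
    rw [this, Complex.arg_one]
  rw [Real.Angle.angle_eq_iff_two_pi_dvd_sub] at hang
  obtain ⟨k, hk⟩ := hang
  rw [sub_zero] at hk
  have hpi := Real.pi_pos
  have hk1 : k < 2 := by
    by_contra hcon
    push Not at hcon
    have : (2 : ℝ) ≤ k := by exact_mod_cast hcon
    nlinarith
  have hk2 : -2 < k := by
    by_contra hcon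
    push Not at hcon
    have : (k : ℝ) ≤ -2 := by exact_mod_cast hcon
    nlinarith
  have hk3 : k = 0 ∨ k = 1 ∨ k = -1 := by omega
  rcases hk3 with h0 | h0 | h0
  · rw [hk, h0]; simp
  · exfalso
    apply h
    rw [h0] at hk
    push_cast at hk
    exact tri_zero_of_pos (cr_pos_of_arg (by linarith) a1) (cr_pos_of_arg (by linarith) a2)
      (cr_pos_of_arg (by linarith) a3)
  · exfalso
    apply h
    rw [h0] at hk
    push_cast at hk
    exact tri_zero_of_neg (cr_neg_of_arg (by linarith)) (cr_neg_of_arg (by linarith))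
      (cr_neg_of_arg (by linarith))

namespace Draw

variable {V : Type} {R : V → V → Prop} {n : V → V} {p : V → ℂ} (D : Draw R n p)
include D

theorem F_neg (a : V) : Fv n p (n a) = - Fv n p a := by
  unfold Fv; rw [D.negneg]; ring

theorem F_edge {a b : V} (hab : R a b) : ¬ Seg (Fv n p a) (Fv n p b) 0 := by
  rintro ⟨t, h0, h1, h⟩
  have h2 : (1 - t : ℝ) * p a + (t : ℝ) * p b = (1 - t : ℝ) * p (n a) + (t : ℝ) * p (n b) := by
    unfold Fv at h
    linear_combination -h
  refine D.cross a b (n a) (n b) hab (D.nn hab) (D.nr (D.refl a)) (D.nr (D.refl b)) _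
    ⟨t, h0, h1, rfl⟩ ⟨t, h0, h1, h2⟩

theorem F_ne (a : V) : Fv n p a ≠ 0 := by
  intro h
  apply D.F_edge (D.refl a)
  rw [h]
  exact Seg.left _ _

theorem E_ne_pi {a b : V} (hab : R a b) : E n p a b ≠ Real.pi := by
  intro h
  unfold E at h
  rw [Complex.arg_eq_pi_iff] at h
  apply D.F_edge hab
  set r := (Fv n p b / Fv n p a).re with hr
  have hra : Fv n p b = (r : ℂ) * Fv n p a := by
    have h1 : Fv n p b / Fv n p a = (r : ℂ) := by
      apply Complex.ext
      · simp [hr]
      · simp [h.2]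
    rw [← h1]
    field_simp [D.F_ne a]
  have hr0 : r < 0 := h.1
  have h1r : 0 < 1 - r := by linarith
  refine ⟨1 / (1 - r), by positivity, by rw [div_le_one h1r]; linarith, ?_⟩
  rw [hra]
  have : ((1 - r : ℝ) : ℂ) ≠ 0 := by exact_mod_cast h1r.ne'
  push_cast at this ⊢
  field_simp
  ring

theorem E_symm {a b : V} (hab : R a b) : E n p b a = - E n p a b := by
  have h := D.E_ne_pi hab
  unfold E at h ⊢
  rw [← inv_div, Complex.arg_inv, if_neg h]

theorem E_nn (a b : V) : E n p (n a) (n b) = E n p a b := by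
  unfold E
  rw [D.F_neg, D.F_neg, neg_div_neg_eq]

theorem E_nl (a b : V) : E n p (n a) b = E n p a (n b) := by
  unfold E
  rw [D.F_neg, D.F_neg, div_neg, neg_div]

theorem face_eq {a b c : V} (hab : R a b) (hbc : R b c) (hac : R a c)
    (h : ¬ Tri (Fv n p a) (Fv n p b) (Fv n p c) 0) :
    E n p a b + E n p b c - E n p a c = 0 := by
  have h1 := sum_zero (D.F_ne a) (D.F_ne b) (D.F_ne c) (D.E_ne_pi hab) (D.E_ne_pi hbc)
    (D.E_ne_pi (D.symm _ _ hac)) h
  have h2 := D.E_symm hac
  unfold E at h2 ⊢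
  rw [h2] at h1
  linarith

/-- sum of rotations along a path -/
noncomputable def pathSum {V : Type} (n : V → V) (p : V → ℂ) : V → List V → ℝ
  | _, [] => 0
  | a, b :: l => E n p a b + pathSum n p b l

theorem pathSum_angle (l : List V) : ∀ a : V, ((pathSum n p a l : ℝ) : Real.Angle) =
    (Complex.arg (Fv n p ((a :: l).getLast (by simp)) / Fv n p a) : Real.Angle) := by
  induction l with
  | nil =>
    intro a
    simp [pathSum, div_self (D.F_ne a)]
  | cons b l ih =>
    intro a
    rw [pathSum, Real.Angle.coe_add, ih b]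
    unfold E
    rw [← Complex.arg_mul_coe_angle (div_ne_zero (D.F_ne _) (D.F_ne _))
      (div_ne_zero (D.F_ne _) (D.F_ne _))]
    have : Fv n p b / Fv n p a * (Fv n p ((b :: l).getLast (by simp)) / Fv n p b) =
        Fv n p ((a :: b :: l).getLast (by simp)) / Fv n p a := by
      have hb := D.F_ne b
      rw [List.getLast_cons (List.cons_ne_nil b l) (a := a)]
      field_simp
    rw [this]

theorem pathSum_ne {a : V} {l : List V} (hl : (a :: l).getLast (by simp) = n a) :
    pathSum n p a l ≠ 0 := by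
  intro h
  have h1 := D.pathSum_angle l a
  rw [h, hl, D.F_neg, neg_div, div_self (D.F_ne a), Complex.arg_neg_one] at h1
  exact Real.Angle.pi_ne_zero h1.symm

end Draw

theorem tri_conv {a b c q s r : ℂ} (hq : Tri a b c q) (hs : Tri a b c s) (hr : Seg q s r) :
    Tri a b c r := by
  obtain ⟨x1, x2, x3, g1, g2, g3, e1, rfl⟩ := hq
  obtain ⟨y1, y2, y3, k1, k2, k3, e2, rfl⟩ := hs
  obtain ⟨t, t0, t1, rfl⟩ := hr
  have t1' : 0 ≤ 1 - t := by linarith
  refine ⟨(1 - t) * x1 + t * y1, (1 - t) * x2 + t * y2, (1 - t) * x3 + t * y3,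
    by positivity, by positivity, by positivity, ?_, ?_⟩
  · have : (1 - t) * x1 + t * y1 + ((1 - t) * x2 + t * y2) + ((1 - t) * x3 + t * y3) =
        (1 - t) * (x1 + x2 + x3) + t * (y1 + y2 + y3) := by ring
    rw [this, e1, e2]; ring
  · push_cast; ring

theorem seg_sub {a b q r : ℂ} (hq : Seg a b q) (hr : Seg q a r) : Seg a b r := by
  obtain ⟨t, t0, t1, rfl⟩ := hq
  obtain ⟨s, s0, s1, rfl⟩ := hr
  refine ⟨(1 - s) * t, mul_nonneg (by linarith) t0, ?_, ?_⟩
  · nlinarith
  · push_cast; ring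

namespace Draw

variable {V : Type} {R : V → V → Prop} {n : V → V} {p : V → ℂ} (D : Draw R n p)
include D

theorem side_in {a b c u v : V} (hab : R a b) (hbc : R b c) (hac : R a c) (huv : R u v)
    (ua : R u a) (ub : R u b) (vb : R v b) (vc : R v c) {q : ℂ} (hq : Seg (p u) (p v) q)
    (hB : Tri (p (n a)) (p (n b)) (p (n c)) q) : Tri (p (n a)) (p (n b)) (p (n c)) (p u) := by
  by_contra hcon
  obtain ⟨r, hr, hr'⟩ := tri_exit hB hcon
  have hr2 : Seg (p u) (p v) r := seg_sub hq hr
  rcases hr' with h | h | h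
  · exact D.cross u v (n a) (n b) huv (D.nn hab) (D.nr ua) (D.nr vb) r hr2 h
  · exact D.cross u v (n b) (n c) huv (D.nn hbc) (D.nr ub) (D.nr vc) r hr2 h
  · exact D.cross u v (n a) (n c) huv (D.nn hac) (D.nr ua) (D.nr vc) r hr2 h

theorem nested {a b c : V} (hab : R a b) (hbc : R b c) (hac : R a c)
    (h : Tri (Fv n p a) (Fv n p b) (Fv n p c) 0) :
    Tri (p a) (p b) (p c) (p (n a)) ∨ Tri (p (n a)) (p (n b)) (p (n c)) (p a) := by
  by_cases hIn : Tri (p a) (p b) (p c) (p (n a))
  · exact Or.inl hIn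
  · right
    obtain ⟨x, y, z, hx, hy, hz, hs, h0⟩ := h
    have hqA : Tri (p a) (p b) (p c) ((x : ℝ) * p a + (y : ℝ) * p b + (z : ℝ) * p c) :=
      ⟨x, y, z, hx, hy, hz, hs, rfl⟩
    have hqB : Tri (p (n a)) (p (n b)) (p (n c))
        ((x : ℝ) * p a + (y : ℝ) * p b + (z : ℝ) * p c) := by
      refine ⟨x, y, z, hx, hy, hz, hs, ?_⟩
      unfold Fv at h0
      linear_combination -h0
    obtain ⟨q, hq, hq'⟩ := tri_exit hqA hIn
    have hna : Tri (p (n a)) (p (n b)) (p (n c)) (p (n a)) :=
      ⟨1, 0, 0, zero_le_one, le_rfl, le_rfl, by norm_num, by simp⟩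
    have hqB' := tri_conv hqB hna hq
    have aa := D.refl a
    have bb := D.refl b
    have cc := D.refl c
    have ba := D.symm _ _ hab
    have cb := D.symm _ _ hbc
    have ca := D.symm _ _ hac
    rcases hq' with h | h | h
    · exact D.side_in hab hbc hac hab aa hab bb hbc h hqB'
    · have hb := D.side_in hab hbc hac hbc ba bb cb cc h hqB'
      exact D.side_in hab hbc hac hab aa hab bb hbc (Seg.right _ _) hb
    · exact D.side_in hab hbc hac hac aa hab cb cc h hqB'

theorem anti : Draw R n (fun a => p (n a)) where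
  refl := D.refl
  symm := D.symm
  neg := D.neg
  negneg := D.negneg
  cross := by
    intro a b c d hab hcd hac hbd q h1 h2
    refine D.cross (n a) (n b) (n c) (n d) (D.nn hab) (D.nn hcd) ?_ ?_ q h1 h2
    · intro h
      apply hac
      have := D.nn h
      rwa [D.negneg, D.negneg] at this
    · intro h
      apply hbd
      have := D.nn h
      rwa [D.negneg, D.negneg] at this

end Draw

end Pool.Agent.H123.SUDG
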