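import Pool.Agent.H123.SUDG.BU

/-!
# The configuration: 80 directions in `ℤ³`

The directions are the images of `(1,1,1)`, `(0,1,4)`, `(0,3,1)`, `(7,7,1)`, `(9,3,5)` under cyclic
permutations of the coordinates and all sign changes. No two are orthogonal.
-/

set_option autoImplicit false

namespace Pool.Agent.H123.SUDG

/-- one direction from each of the 40 antipodal pairs -/
def LV : List (ℤ × ℤ × ℤ) := [
  (1, 1, 1), (1, 1, -1), (1, -1, 1), (1, -1, -1), (4, 0, 1),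
  (4, 0, -1), (1, 4, 0), (1, -4, 0), (0, 1, 4), (0, 1, -4),
  (3, 1, 0), (3, -1, 0), (1, 0, 3), (1, 0, -3), (0, 3, 1),
  (0, 3, -1), (7, 7, 1), (7, 7, -1), (7, 1, 7), (7, 1, -7),
  (7, -1, 7), (7, -1, -7), (7, -7, 1), (7, -7, -1), (1, 7, 7),
  (1, 7, -7), (1, -7, 7), (1, -7, -7), (9, 3, 5), (9, 3, -5),
  (9, -3, 5), (9, -3, -5), (5, 9, 3), (5, 9, -3), (5, -9, 3),
  (5, -9, -3), (3, 5, 9), (3, 5, -9), (3, -5, 9), (3, -5, -9)]

/-- the 80 directions: `vec (i + 40) = - vec i` -/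
def vec (i : Fin 80) : ℤ × ℤ × ℤ :=
  if i.val < 40 then LV.getD i.val (0, 0, 0)
  else (-(LV.getD (i.val - 40) (0, 0, 0)).1, -(LV.getD (i.val - 40) (0, 0, 0)).2.1,
    -(LV.getD (i.val - 40) (0, 0, 0)).2.2)

/-- inner product -/
def dt (u v : ℤ × ℤ × ℤ) : ℤ := u.1 * v.1 + u.2.1 * v.2.1 + u.2.2 * v.2.2

/-- the relation: acute angle -/
def RR (i j : Fin 80) : Prop := 0 < dt (vec i) (vec j)

instance (i j : Fin 80) : Decidable (RR i j) := by unfold RR; infer_instance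

/-- antipode -/
def nn (i : Fin 80) : Fin 80 := i + 40

theorem RR_refl : ∀ i, RR i i := by decide +kernel

theorem RR_symm : ∀ i j, RR i j → RR j i := by
  intro i j h
  unfold RR dt at h ⊢
  linarith

theorem RR_neg : ∀ i j, RR i j ↔ ¬ RR (nn i) j := by decide +kernel

theorem nn_nn : ∀ i, nn (nn i) = i := by decide +kernel

/-- the line of a direction, represented by its first direction -/
def ln (i : Fin 80) : Fin 80 := if i.val < 40 then i else nn i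

/-- the direction of the line `j` at an acute angle with `i` -/
def sd (i j : Fin 80) : Fin 80 := if RR i j then j else nn j

theorem ln_cases : ∀ a b, RR a b → (ln a = a ∧ sd (ln a) (ln b) = b) ∨
    (ln a = nn a ∧ sd (ln a) (ln b) = nn b) := by decide +kernel

/-- half of the faces of a centrally symmetric triangulation of the sphere, each with 7 or 10
directions -/
def faces : List (Fin 80 × Fin 80 × Fin 80 × List (Fin 80)) := [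
  (0, 16, 28, [22, 2, 12, 8, 67, 47, 15, 1, 19, 31]),
  (0, 16, 32, [20, 11, 19, 25, 74, 43, 8]),
  (0, 18, 28, [67, 6, 1, 31, 22, 26, 53]),
  (0, 18, 36, [61, 43, 14, 6, 17, 5, 11, 2, 26, 77]),
  (0, 24, 32, [25, 1, 10, 4, 20, 49, 53, 43, 63, 74]),
  (0, 24, 36, [4, 2, 77, 61, 63, 15, 17]),
  (1, 17, 33, [21, 11, 18, 24, 75, 42, 9]),
  (2, 20, 30, [29, 3, 7, 65, 53, 24, 16]),
  (2, 20, 38, [7, 55, 41, 59, 79, 24, 0, 10, 5, 23]),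
  (2, 22, 30, [46, 54, 3, 21, 29, 16, 0, 12, 49, 65]),
  (2, 22, 34, [41, 49, 18, 10, 21, 27, 72]),
  (2, 26, 34, [3, 27, 72, 57, 41, 53, 8, 18, 4, 11]),
  (2, 26, 38, [4, 0, 79, 59, 57, 54, 23]),
  (4, 5, 10, [13, 1, 33, 32, 36, 12, 2, 34, 35, 39]),
  (4, 5, 11, [38, 34, 35, 3, 13, 1, 33, 32, 36, 12]),
  (4, 10, 28, [35, 3, 19, 1, 33, 14, 67, 12, 38, 2]),
  (4, 11, 30, [21, 1, 16, 0, 36, 49, 65, 55, 35, 3]),
  (4, 18, 20, [67, 6, 33, 29, 31, 35, 7, 26, 49, 8]),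
  (4, 18, 28, [26, 35, 31, 1, 6, 67, 49]),
  (4, 20, 30, [8, 24, 33, 29, 3, 7, 65]),
  (6, 14, 32, [20, 4, 29, 1, 25, 42, 63, 43, 79, 12]),
  (6, 47, 14, [1, 37, 78, 70, 51, 71, 79, 36, 0, 10]),
  (6, 15, 33, [5, 21, 13, 78, 42, 62, 43, 79, 0, 28]),
  (6, 47, 15, [36, 28, 10, 1, 37, 78, 70, 51, 71, 79]),
  (6, 16, 17, [75, 79, 8, 18, 4, 5, 21, 9, 78, 74]),
  (6, 16, 32, [19, 5, 20, 8, 43, 74, 78]),
  (6, 17, 33, [4, 18, 79, 75, 42, 9, 21]),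
  (8, 12, 36, [6, 75, 43, 69, 41, 26, 2, 30, 10, 17]),
  (8, 49, 12, [41, 55, 2, 30, 28, 32, 14, 75, 71, 69]),
  (8, 24, 36, [63, 69, 77, 2, 4, 17, 47]),
  (8, 24, 67, [45, 62, 47, 6, 16, 4, 30, 38, 77, 69]),
  (8, 49, 53, [34, 30, 28, 32, 14, 75, 71, 69, 41, 55]),
  (8, 53, 79, [47, 32, 0, 30, 2, 65, 41, 69, 51, 62]),
  (8, 67, 79, [30, 16, 6, 62, 45, 41, 38]),
  (10, 16, 17, [47, 14, 8, 12, 30, 11, 31, 13, 9, 15]),
  (10, 16, 28, [1, 15, 47, 67, 8, 12, 2, 22, 31, 19]),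
  (10, 17, 29, [30, 23, 3, 13, 9, 66, 47, 14, 0, 18]),
  (11, 22, 30, [12, 49, 65, 46, 54, 3, 21, 29, 16, 0]),
  (12, 18, 20, [10, 5, 11, 7, 55, 77, 53, 79, 14, 6]),
  (12, 18, 36, [14, 6, 17, 5, 11, 2, 26, 77, 61, 43]),
  (12, 20, 38, [59, 41, 55, 7, 23, 5, 10, 0, 24, 79]),
  (9, 52, 78, [40, 68, 51, 63, 15, 33, 1, 31, 3, 64]),
  (14, 24, 32, [49, 20, 4, 10, 1, 25, 74, 63, 43, 53]),
  (14, 24, 67, [4, 12, 49, 53, 45, 51, 74, 15, 33, 10]),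
  (7, 54, 35, [19, 11, 30, 2, 77, 41, 56, 40, 76, 13]),
  (14, 67, 75, [0, 12, 49, 59, 45, 51, 42, 66, 33, 16]),
  (7, 55, 34, [3, 76, 40, 57, 41, 77, 12, 18, 11, 31]),
  (15, 66, 74, [17, 1, 13, 48, 58, 44, 51, 43, 67, 32]),
  (9, 66, 78, [39, 31, 17, 6, 63, 44, 40]),
  (9, 25, 66, [62, 47, 6, 16, 5, 31, 39, 76, 68, 44]),
  (15, 25, 66, [32, 10, 5, 13, 48, 52, 44, 51, 75, 14]),
  (1, 17, 29, [47, 14, 0, 18, 30, 23, 3, 13, 9, 66]),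
  (1, 19, 29, [66, 6, 0, 30, 23, 27, 52]),
  (1, 19, 37, [76, 27, 3, 11, 4, 16, 6, 15, 42, 60]),
  (1, 25, 33, [48, 21, 5, 10, 0, 24, 75, 62, 42, 52]),
  (1, 25, 37, [62, 60, 76, 3, 5, 16, 14]),
  (3, 21, 31, [25, 17, 28, 2, 7, 64, 52]),
  (3, 21, 39, [7, 22, 4, 10, 1, 25, 78, 58, 40, 54]),
  (3, 23, 31, [55, 46, 64, 48, 13, 1, 17, 28, 20, 2]),
  (3, 23, 35, [19, 10, 20, 26, 73, 40, 48]),
  (3, 27, 35, [9, 19, 5, 11, 2, 26, 73, 56, 40, 52]),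
  (3, 27, 39, [58, 56, 55, 22, 5, 1, 78]),
  (5, 10, 29, [2, 23, 3, 39, 9, 66, 15, 32, 0, 18]),
  (5, 11, 31, [54, 64, 48, 37, 1, 17, 0, 20, 2, 34]),
  (5, 19, 21, [32, 6, 25, 9, 48, 64, 7, 34, 30, 28]),
  (5, 19, 29, [34, 27, 48, 66, 6, 0, 30]),
  (5, 21, 31, [28, 2, 7, 64, 9, 25, 32]),
  (7, 22, 23, [72, 76, 48, 19, 5, 4, 20, 49, 77, 73]),
  (7, 22, 34, [5, 21, 76, 72, 41, 49, 18]),
  (7, 23, 35, [20, 77, 73, 40, 48, 19, 4]),
  (9, 13, 37, [16, 15, 74, 42, 68, 40, 27, 3, 31, 10]),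
  (9, 25, 37, [47, 62, 68, 76, 3, 5, 16]),
  (11, 22, 23, [29, 13, 48, 54, 46, 55, 49, 12, 28, 10]),
  (11, 23, 31, [20, 28, 17, 1, 13, 48, 64, 46, 55, 2]),
  (13, 19, 21, [78, 15, 6, 10, 4, 11, 7, 54, 76, 52]),
  (13, 19, 37, [60, 76, 27, 3, 11, 4, 16, 6, 15, 42]),
  (13, 21, 39, [58, 78, 25, 1, 10, 4, 22, 7, 54, 40]),
  (15, 25, 33, [21, 5, 10, 0, 24, 75, 62, 42, 52, 48])]

/-- the check for one face -/
def Good (f : Fin 80 × Fin 80 × Fin 80 × List (Fin 80)) : Prop :=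
  RR f.1 f.2.1 ∧ RR f.2.1 f.2.2.1 ∧ RR f.1 f.2.2.1 ∧
  (∀ y ∈ f.2.2.2, RR y f.1 ∧ RR y f.2.1 ∧ RR y f.2.2.1) ∧
  ((f.2.2.2.length = 7 ∧ ∀ i j : Fin 7, far7 i j = true →
      ¬ RR (f.2.2.2.getD i.val 0) (f.2.2.2.getD j.val 0)) ∨
   (f.2.2.2.length = 10 ∧ ∀ i j : Fin 10, far10 i j = true →
      ¬ RR (f.2.2.2.getD i.val 0) (f.2.2.2.getD j.val 0)))

instance (f : Fin 80 × Fin 80 × Fin 80 × List (Fin 80)) : Decidable (Good f) := by
  unfold Good; infer_instance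

theorem faces_good : ∀ f ∈ faces, Good f := by decide +kernel

/-- the lines of the faces -/
def tris : List (ℕ × ℕ × ℕ) := [
  (0, 16, 28), (0, 16, 32), (0, 18, 28), (0, 18, 36), (0, 24, 32), (0, 24, 36),
  (1, 17, 33), (2, 20, 30), (2, 20, 38), (2, 22, 30), (2, 22, 34), (2, 26, 34),
  (2, 26, 38), (4, 5, 10), (4, 5, 11), (4, 10, 28), (4, 11, 30), (4, 18, 20),
  (4, 18, 28), (4, 20, 30), (6, 14, 32), (6, 7, 14), (6, 15, 33), (6, 7, 15),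
  (6, 16, 17), (6, 16, 32), (6, 17, 33), (8, 12, 36), (8, 9, 12), (8, 24, 36),
  (8, 24, 27), (8, 9, 13), (8, 13, 39), (8, 27, 39), (10, 16, 17), (10, 16, 28),
  (10, 17, 29), (11, 22, 30), (12, 18, 20), (12, 18, 36), (12, 20, 38), (9, 12, 38),
  (14, 24, 32), (14, 24, 27), (7, 14, 35), (14, 27, 35), (7, 15, 34), (15, 26, 34),
  (9, 26, 38), (9, 25, 26), (15, 25, 26), (1, 17, 29), (1, 19, 29), (1, 19, 37),
  (1, 25, 33), (1, 25, 37), (3, 21, 31), (3, 21, 39), (3, 23, 31), (3, 23, 35),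
  (3, 27, 35), (3, 27, 39), (5, 10, 29), (5, 11, 31), (5, 19, 21), (5, 19, 29),
  (5, 21, 31), (7, 22, 23), (7, 22, 34), (7, 23, 35), (9, 13, 37), (9, 25, 37),
  (11, 22, 23), (11, 23, 31), (13, 19, 21), (13, 19, 37), (13, 21, 39), (15, 25, 33)]

theorem tris_eq : faces.map (fun f => ((ln f.1).val, (ln f.2.1).val, (ln f.2.2.1).val)) = tris := by
  decide +kernel

/-- the linear combination of the face equations -/
theorem lin (X : ℕ → ℕ → ℝ)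
    (H : ∀ t ∈ tris, X t.1 t.2.1 + X t.2.1 t.2.2 - X t.1 t.2.2 = 0) :
    X 1 33 - X 15 33 + X 15 34 - X 22 34 - X 11 22 - X 5 11 + X 5 10 + X 10 29 - X 17 29 - X 1 17 = 0 := by
  simp only [tris, List.forall_mem_cons] at H
  obtain ⟨h0, h1, h2, h3, h4, h5, h6, h7, h8, h9, h10, h11, h12, h13, h14, h15, h16, h17, h18,
    h19, h20, h21, h22, h23, h24, h25, h26, h27, h28, h29, h30, h31, h32, h33, h34, h35, h36,
    h37, h38, h39, h40, h41, h42, h43, h44, h45, h46, h47, h48, h49, h50, h51, h52, h53, h54,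
    h55, h56, h57, h58, h59, h60, h61, h62, h63, h64, h65, h66, h67, h68, h69, h70, h71, h72,
    h73, h74, h75, h76, h77, -⟩ := H
  linear_combination (1 / 2 : ℝ) * (- h0 + h1 + h2 - h3 - h4 + h5 - h6 - h7 + h8 + h9 - h10 +
    h11 - h12 + h13 - h14 + h15 - h16 + h17 - h18 + h19 + h20 + h21 - h22 - h23 + h24 - h25 +
    h26 + h27 + h28 - h29 + h30 - h31 - h32 + h33 - h34 + h35 - h36 - h37 - h38 + h39 - h40 -
    h41 + h42 - h43 - h44 - h45 + h46 - h47 + h48 + h49 - h50 - h51 + h52 - h53 - h54 + h55 -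
    h56 + h57 + h58 - h59 + h60 - h61 + h62 - h63 + h64 - h65 + h66 + h67 - h68 + h69 + h70 -
    h71 - h72 - h73 - h74 + h75 - h76 + h77)

end Pool.Agent.H123.SUDG
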