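import Mathlib

/-!
# Planar geometry for spherical uniform disk graphs versus disk graphs

Segments and triangles in the plane `ℂ`.
-/

set_option autoImplicit false

namespace Pool.Agent.H123.SUDG

/-- `q` lies on the closed segment `[a, b]` -/
def Seg (a b q : ℂ) : Prop := ∃ t : ℝ, 0 ≤ t ∧ t ≤ 1 ∧ q = (1 - t : ℝ) * a + (t : ℝ) * b

/-- `q` lies in the closed triangle `a b c` -/
def Tri (a b c q : ℂ) : Prop :=
  ∃ x y z : ℝ, 0 ≤ x ∧ 0 ≤ y ∧ 0 ≤ z ∧ x + y + z = 1 ∧ q = (x : ℝ) * a + (y : ℝ) * b + (z : ℝ) * c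

/-- cross product of plane vectors -/
def cr (x y : ℂ) : ℝ := x.re * y.im - x.im * y.re

theorem Seg.symm {a b q : ℂ} (h : Seg a b q) : Seg b a q := by
  obtain ⟨t, h0, h1, h⟩ := h
  refine ⟨1 - t, by linarith, by linarith, ?_⟩
  rw [h]; push_cast; ring

theorem Seg.left (a b : ℂ) : Seg a b a := ⟨0, le_rfl, zero_le_one, by simp⟩

theorem Seg.right (a b : ℂ) : Seg a b b := ⟨1, zero_le_one, le_rfl, by simp⟩

theorem Seg.tri {a b q : ℂ} (h : Seg a b q) (c : ℂ) : Tri a b c q := by
  obtain ⟨t, h0, h1, h⟩ := h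
  exact ⟨1 - t, t, 0, by linarith, h0, le_rfl, by ring, by rw [h]; push_cast; ring⟩

theorem Tri.rot {a b c q : ℂ} (h : Tri a b c q) : Tri b c a q := by
  obtain ⟨x, y, z, hx, hy, hz, hs, h⟩ := h
  exact ⟨y, z, x, hy, hz, hx, by linarith, by rw [h]; ring⟩

theorem Tri.swap {a b c q : ℂ} (h : Tri a b c q) : Tri b a c q := by
  obtain ⟨x, y, z, hx, hy, hz, hs, h⟩ := h
  exact ⟨y, x, z, hy, hx, hz, by linarith, by rw [h]; ring⟩

/-- three affine functions on `[0,1]` -/
theorem ivt3 (x1 x2 x3 y1 y2 y3 : ℝ) (h1 : 0 ≤ x1) (h2 : 0 ≤ x2) (h3 : 0 ≤ x3)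
    (hy : y1 ≤ 0 ∨ y2 ≤ 0 ∨ y3 ≤ 0) :
    ∃ t : ℝ, 0 ≤ t ∧ t ≤ 1 ∧ 0 ≤ (1 - t) * x1 + t * y1 ∧ 0 ≤ (1 - t) * x2 + t * y2 ∧
      0 ≤ (1 - t) * x3 + t * y3 ∧ ((1 - t) * x1 + t * y1 = 0 ∨ (1 - t) * x2 + t * y2 = 0 ∨
        (1 - t) * x3 + t * y3 = 0) := by
  set m : ℝ → ℝ := fun t => min (min ((1 - t) * x1 + t * y1) ((1 - t) * x2 + t * y2))
    ((1 - t) * x3 + t * y3) with hm
  have hc : ContinuousOn m (Set.Icc 0 1) := by
    apply Continuous.continuousOn
    fun_prop
  have hm1 : m 1 ≤ 0 := by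
    simp only [hm]
    rcases hy with h | h | h
    · exact (min_le_left _ _).trans ((min_le_left _ _).trans (by linarith))
    · exact (min_le_left _ _).trans ((min_le_right _ _).trans (by linarith))
    · exact (min_le_right _ _).trans (by linarith)
  have hm0 : 0 ≤ m 0 := by
    simp only [hm]
    refine le_min (le_min ?_ ?_) ?_ <;> linarith
  obtain ⟨t, ht, hmt⟩ := intermediate_value_Icc' (zero_le_one' ℝ) hc ⟨hm1, hm0⟩
  have g1 : m t ≤ (1 - t) * x1 + t * y1 := (min_le_left _ _).trans (min_le_left _ _)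
  have g2 : m t ≤ (1 - t) * x2 + t * y2 := (min_le_left _ _).trans (min_le_right _ _)
  have g3 : m t ≤ (1 - t) * x3 + t * y3 := min_le_right _ _
  refine ⟨t, ht.1, ht.2, by linarith, by linarith, by linarith, ?_⟩
  have : m t = min (min ((1 - t) * x1 + t * y1) ((1 - t) * x2 + t * y2))
    ((1 - t) * x3 + t * y3) := rfl
  rw [hmt] at this
  rcases min_choice (min ((1 - t) * x1 + t * y1) ((1 - t) * x2 + t * y2))
    ((1 - t) * x3 + t * y3) with h | h
  · rcases min_choice ((1 - t) * x1 + t * y1) ((1 - t) * x2 + t * y2) with h' | h'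
    · left; rw [this, h, h']
    · right; left; rw [this, h, h']
  · right; right; rw [this, h]

/-- degenerate triangles are the union of their sides -/
theorem tri_deg {a b c q : ℂ} (hD : cr (b - a) (c - a) = 0) (h : Tri a b c q) :
    Seg a b q ∨ Seg b c q ∨ Seg a c q := by
  obtain ⟨x, y, z, hx, hy, hz, hs, h⟩ := h
  by_cases hab : a = b
  · right; right
    refine ⟨z, hz, by linarith, ?_⟩
    rw [h, ← hab]
    have : x = 1 - y - z := by linarith
    rw [this]; push_cast; ring
  · -- c - a = k (b - a)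
    have hba : b - a ≠ 0 := sub_ne_zero.2 (Ne.symm hab)
    obtain ⟨k, hk⟩ : ∃ k : ℝ, c - a = (k : ℂ) * (b - a) := by
      set u := b - a with hu
      set v := c - a with hv
      have hn : Complex.normSq u ≠ 0 := fun h => hba (Complex.normSq_eq_zero.1 h)
      refine ⟨(v.re * u.re + v.im * u.im) / Complex.normSq u, ?_⟩
      unfold cr at hD
      have hn' : u.re * u.re + u.im * u.im ≠ 0 := by rwa [Complex.normSq_apply] at hn
      apply Complex.ext
      · rw [Complex.re_ofReal_mul, Complex.normSq_apply, div_mul_eq_mul_div, eq_div_iff hn']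
        linear_combination (-u.im) * hD
      · rw [Complex.im_ofReal_mul, Complex.normSq_apply, div_mul_eq_mul_div, eq_div_iff hn']
        linear_combination (u.re) * hD
    have hc : c = (1 - k : ℝ) * a + (k : ℝ) * b := by
      have : c = a + (k : ℂ) * (b - a) := by rw [← hk]; ring
      rw [this]; push_cast; ring
    -- q = (1 - s) a + s b with s = y + z k
    have hq : q = (1 - (y + z * k) : ℝ) * a + ((y + z * k : ℝ) : ℂ) * b := by
      rw [h, hc]
      have : x = 1 - y - z := by linarith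
      rw [this]; push_cast; ring
    by_cases hk0 : k < 0
    · -- c, a, b in order: q on [b, c]
      right; left
      refine ⟨(1 - (y + z * k)) / (1 - k), ?_, ?_, ?_⟩
      · apply div_nonneg _ (by linarith)
        nlinarith
      · rw [div_le_one (by linarith)]
        nlinarith
      · rw [hq, hc]
        have h1k : (1 - k : ℝ) ≠ 0 := by linarith
        have h1k' : ((1 - k : ℝ) : ℂ) ≠ 0 := by exact_mod_cast h1k
        push_cast at h1k' ⊢
        field_simp
        ring
    · push Not at hk0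
      by_cases hk1 : k ≤ 1
      · left
        refine ⟨y + z * k, by positivity, ?_, hq⟩
        nlinarith
      · push Not at hk1
        right; right
        refine ⟨(y + z * k) / k, by positivity, ?_, ?_⟩
        · rw [div_le_one (by linarith)]
          nlinarith
        · rw [hq, hc]
          have hkne : (k : ℝ) ≠ 0 := by linarith
          have hk' : (k : ℂ) ≠ 0 := by exact_mod_cast hkne
          push_cast
          field_simp
          ring

/-- barycentric coordinates -/
theorem bary {a b c : ℂ} (hD : cr (b - a) (c - a) ≠ 0) (q : ℂ) :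
    q = (1 - cr (q - a) (c - a) / cr (b - a) (c - a) - cr (b - a) (q - a) / cr (b - a) (c - a) : ℝ)
      * a + (cr (q - a) (c - a) / cr (b - a) (c - a) : ℝ) * b
      + (cr (b - a) (q - a) / cr (b - a) (c - a) : ℝ) * c := by
  apply Complex.ext
  · simp only [Complex.add_re, Complex.re_ofReal_mul]
    field_simp
    unfold cr
    simp only [Complex.sub_re, Complex.sub_im]
    ring
  · simp only [Complex.add_im, Complex.im_ofReal_mul]
    field_simp
    unfold cr
    simp only [Complex.sub_re, Complex.sub_im]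
    ring

theorem exists_bary {a b c : ℂ} (hD : cr (b - a) (c - a) ≠ 0) (q : ℂ) :
    ∃ x y z : ℝ, x + y + z = 1 ∧ q = (x : ℝ) * a + (y : ℝ) * b + (z : ℝ) * c :=
  ⟨_, _, _, by ring, bary hD q⟩

theorem side_of_zero {a b c q : ℂ} {x y z : ℝ} (hx : 0 ≤ x) (hy : 0 ≤ y) (hz : 0 ≤ z)
    (hs : x + y + z = 1) (hq : q = (x : ℝ) * a + (y : ℝ) * b + (z : ℝ) * c)
    (h0 : x = 0 ∨ y = 0 ∨ z = 0) : Seg a b q ∨ Seg b c q ∨ Seg a c q := by
  rcases h0 with h0 | h0 | h0
  · right; left
    refine ⟨z, hz, by linarith, ?_⟩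
    rw [hq, h0]
    have : y = 1 - z := by linarith
    rw [this]; push_cast; ring
  · right; right
    refine ⟨z, hz, by linarith, ?_⟩
    rw [hq, h0]
    have : x = 1 - z := by linarith
    rw [this]; push_cast; ring
  · left
    refine ⟨y, hy, by linarith, ?_⟩
    rw [hq, h0]
    have : x = 1 - y := by linarith
    rw [this]; push_cast; ring

/-- a segment leaving a triangle meets a side -/
theorem tri_exit {a b c z w : ℂ} (hz : Tri a b c z) (hw : ¬ Tri a b c w) :
    ∃ q, Seg z w q ∧ (Seg a b q ∨ Seg b c q ∨ Seg a c q) := by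
  by_cases hD : cr (b - a) (c - a) = 0
  · exact ⟨z, Seg.left z w, tri_deg hD hz⟩
  · obtain ⟨x1, x2, x3, h1, h2, h3, hs, hz'⟩ := hz
    obtain ⟨y1, y2, y3, hsy, hw'⟩ := exists_bary hD w
    have hy : y1 ≤ 0 ∨ y2 ≤ 0 ∨ y3 ≤ 0 := by
      by_contra hcon
      push Not at hcon
      exact hw ⟨y1, y2, y3, hcon.1.le, hcon.2.1.le, hcon.2.2.le, hsy, hw'⟩
    obtain ⟨t, ht0, ht1, g1, g2, g3, hg⟩ := ivt3 x1 x2 x3 y1 y2 y3 h1 h2 h3 hy
    refine ⟨(1 - t : ℝ) * z + (t : ℝ) * w, ⟨t, ht0, ht1, rfl⟩, ?_⟩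
    refine side_of_zero g1 g2 g3 ?_ ?_ hg
    · have : (1 - t) * x1 + t * y1 + ((1 - t) * x2 + t * y2) + ((1 - t) * x3 + t * y3) =
        (1 - t) * (x1 + x2 + x3) + t * (y1 + y2 + y3) := by ring
      rw [this, hs, hsy]; ring
    · rw [hz', hw']; push_cast; ring

/-- replacing a vertex -/
theorem tri_cover {a b c q : ℂ} (hq : Tri a b c q) (d : ℂ) :
    Tri a b d q ∨ Tri b c d q ∨ Tri c a d q := by
  by_cases hD : cr (b - a) (c - a) = 0
  · rcases tri_deg hD hq with h | h | h
    · exact Or.inl (h.tri d)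
    · exact Or.inr (Or.inl (h.tri d))
    · exact Or.inr (Or.inr (h.symm.tri d))
  · obtain ⟨x1, x2, x3, h1, h2, h3, hs, hq'⟩ := hq
    obtain ⟨y1, y2, y3, hsy, hd⟩ := exists_bary hD d
    have hy : x1 - y1 ≤ 0 ∨ x2 - y2 ≤ 0 ∨ x3 - y3 ≤ 0 := by
      by_contra hcon
      push Not at hcon
      linarith [hcon.1, hcon.2.1, hcon.2.2]
    obtain ⟨t, ht0, ht1, g1, g2, g3, hg⟩ :=
      ivt3 x1 x2 x3 (x1 - y1) (x2 - y2) (x3 - y3) h1 h2 h3 hy
    set e1 := (1 - t) * x1 + t * (x1 - y1) with he1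
    set e2 := (1 - t) * x2 + t * (x2 - y2) with he2
    set e3 := (1 - t) * x3 + t * (x3 - y3) with he3
    have hsum : e1 + e2 + e3 + t = 1 := by
      have : e1 + e2 + e3 + t = (x1 + x2 + x3) + t * (1 - (y1 + y2 + y3)) := by
        rw [he1, he2, he3]; ring
      rw [this, hs, hsy]; ring
    have hqe : q = (e1 : ℝ) * a + (e2 : ℝ) * b + (e3 : ℝ) * c + (t : ℝ) * d := by
      rw [hq', hd, he1, he2, he3]; push_cast; ring
    rcases hg with hg | hg | hg
    · right; left
      refine ⟨e2, e3, t, g2, g3, ht0, by linarith, ?_⟩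
      rw [hqe, hg]; push_cast; ring
    · right; right
      refine ⟨e3, e1, t, g3, g1, ht0, by linarith, ?_⟩
      rw [hqe, hg]; push_cast; ring
    · left
      refine ⟨e1, e2, t, g1, g2, ht0, by linarith, ?_⟩
      rw [hqe, hg]; push_cast; ring

/-- signed height over the line `a b` of a point of the triangle `a b y` -/
theorem height {a b y q : ℂ} {x1 x2 x3 : ℝ} (hs : x1 + x2 + x3 = 1)
    (hq : q = (x1 : ℝ) * a + (x2 : ℝ) * b + (x3 : ℝ) * y) :
    cr (b - a) (q - a) = x3 * cr (b - a) (y - a) := by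
  have h1 : x1 = 1 - x2 - x3 := by linarith
  have hqa : q - a = (x2 : ℝ) * (b - a) + (x3 : ℝ) * (y - a) := by
    rw [hq, h1]; push_cast; ring
  rw [hqa]
  unfold cr
  simp only [Complex.add_re, Complex.add_im, Complex.re_ofReal_mul, Complex.im_ofReal_mul]
  ring

/-- a point of the triangle which is not on the sides has nonzero height -/
theorem height_ne {a b y q : ℂ} (hq : Tri a b y q) (h1 : ¬ Seg a b q) (h2 : ¬ Seg b y q)
    (h3 : ¬ Seg a y q) : 0 < cr (b - a) (q - a) * cr (b - a) (y - a) := by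
  by_cases hD : cr (b - a) (y - a) = 0
  · rcases tri_deg hD hq with h | h | h
    · exact absurd h h1
    · exact absurd h h2
    · exact absurd h h3
  · obtain ⟨x1, x2, x3, g1, g2, g3, hs, hq'⟩ := hq
    have hx3 : x3 ≠ 0 := by
      intro h0
      apply h1
      rcases side_of_zero g1 g2 g3 hs hq' (Or.inr (Or.inr h0)) with h | h | h
      · exact h
      · refine ⟨x2, g2, by linarith, ?_⟩
        rw [hq', h0]
        have : x1 = 1 - x2 := by linarith
        rw [this]; push_cast; ring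
      · refine ⟨x2, g2, by linarith, ?_⟩
        rw [hq', h0]
        have : x1 = 1 - x2 := by linarith
        rw [this]; push_cast; ring
    rw [height hs hq']
    have : 0 < x3 := lt_of_le_of_ne g3 (Ne.symm hx3)
    have h4 : 0 < cr (b - a) (y - a) * cr (b - a) (y - a) := by
      rw [← sq]; positivity
    nlinarith

/-- one half of the key lemma: `y` lies in the triangle `a b z` -/
theorem key_half {a b y z z' : ℂ} (hyz : 0 < cr (b - a) (y - a) * cr (b - a) (z - a))
    (hz' : Tri a b z z') (hz'ab : ¬ Seg a b z')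
    (n1 : ∀ q, Seg z' y q → ¬ Seg b z q) (n2 : ∀ q, Seg z' y q → ¬ Seg a z q) :
    Tri a b z y := by
  by_contra hcon
  obtain ⟨q, hq, hq'⟩ := tri_exit hz' hcon
  rcases hq' with h | h | h
  · obtain ⟨t, ht0, ht1, hqt⟩ := hq
    obtain ⟨x1, x2, x3, g1, g2, g3, hs, hz''⟩ := hz'
    have e1 := height hs hz''
    obtain ⟨s, hs0, hs1, hqs⟩ := h
    have e2 : cr (b - a) (q - a) = 0 := by
      have : q - a = (s : ℝ) * (b - a) := by rw [hqs]; push_cast; ring
      rw [this]; unfold cr
      simp only [Complex.re_ofReal_mul, Complex.im_ofReal_mul]; ring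
    have e3 : cr (b - a) (q - a) = (1 - t) * cr (b - a) (z' - a) + t * cr (b - a) (y - a) := by
      have : q - a = (1 - t : ℝ) * (z' - a) + (t : ℝ) * (y - a) := by rw [hqt]; push_cast; ring
      rw [this]; unfold cr
      simp only [Complex.add_re, Complex.add_im, Complex.re_ofReal_mul, Complex.im_ofReal_mul]
      ring
    rw [e1, e2] at e3
    have e4 : 0 = (1 - t) * x3 * (cr (b - a) (y - a) * cr (b - a) (z - a)) +
        t * (cr (b - a) (y - a) * cr (b - a) (y - a)) := by
      linear_combination (cr (b - a) (y - a)) * e3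
    have hy0 : cr (b - a) (y - a) ≠ 0 := by
      intro h0; rw [h0] at hyz; simp at hyz
    have hyy : 0 < cr (b - a) (y - a) * cr (b - a) (y - a) := by
      rw [← sq]; positivity
    have p1 : 0 ≤ (1 - t) * x3 * (cr (b - a) (y - a) * cr (b - a) (z - a)) := by
      apply mul_nonneg (mul_nonneg (by linarith) g3) hyz.le
    have p2 : 0 ≤ t * (cr (b - a) (y - a) * cr (b - a) (y - a)) := mul_nonneg ht0 hyy.le
    have p3 : t * (cr (b - a) (y - a) * cr (b - a) (y - a)) = 0 := by linarith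
    have ht : t = 0 := by
      rcases mul_eq_zero.1 p3 with h | h
      · exact h
      · exact absurd h hyy.ne'
    apply hz'ab
    refine ⟨s, hs0, hs1, ?_⟩
    rw [← hqs, hqt, ht]; simp
  · exact n1 q hq h
  · exact n2 q hq h

/-- the key lemma -/
theorem key_geom {a b y z y' z' w : ℂ} (hy' : Tri a b y y') (hz' : Tri a b z z')
    (hwy : Tri a b y w) (hwz : Tri a b z w)
    (w1 : ¬ Seg a b w) (w2 : ¬ Seg b y w) (w3 : ¬ Seg a y w) (w4 : ¬ Seg b z w)
    (w5 : ¬ Seg a z w) (hy'ab : ¬ Seg a b y') (hz'ab : ¬ Seg a b z')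
    (n1 : ∀ q, Seg z' y q → ¬ Seg b z q) (n2 : ∀ q, Seg z' y q → ¬ Seg a z q)
    (n3 : ∀ q, Seg y' z q → ¬ Seg b y q) (n4 : ∀ q, Seg y' z q → ¬ Seg a y q)
    (hne : y ≠ z) : False := by
  have hy := height_ne hwy w1 w2 w3
  have hz := height_ne hwz w1 w4 w5
  have hyz : 0 < cr (b - a) (y - a) * cr (b - a) (z - a) := by
    have hw0 : cr (b - a) (w - a) ≠ 0 := by
      intro h0; rw [h0] at hy; simp at hy
    have hww : 0 < cr (b - a) (w - a) * cr (b - a) (w - a) := by rw [← sq]; positivity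
    have : 0 < (cr (b - a) (w - a) * cr (b - a) (w - a)) *
        (cr (b - a) (y - a) * cr (b - a) (z - a)) := by
      have := mul_pos hy hz
      nlinarith
    exact (mul_pos_iff_of_pos_left hww).1 this
  have hzy : 0 < cr (b - a) (z - a) * cr (b - a) (y - a) := by rw [mul_comm]; exact hyz
  have t1 := key_half hyz hz' hz'ab n1 n2
  have t2 := key_half hzy hy' hy'ab n3 n4
  obtain ⟨x1, x2, x3, g1, g2, g3, hs, e1⟩ := t1
  obtain ⟨v1, v2, v3, k1, k2, k3, hs', e2⟩ := t2
  have r1 := height hs e1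
  have r2 := height hs' e2
  have hz0 : cr (b - a) (z - a) ≠ 0 := by
    intro h0; rw [h0] at hyz; simp at hyz
  have hprod : x3 * v3 = 1 := by
    have : cr (b - a) (z - a) * (x3 * v3) = cr (b - a) (z - a) * 1 := by
      calc cr (b - a) (z - a) * (x3 * v3) = v3 * (x3 * cr (b - a) (z - a)) := by ring
        _ = v3 * cr (b - a) (y - a) := by rw [← r1]
        _ = cr (b - a) (z - a) * 1 := by rw [← r2]; ring
    exact mul_left_cancel₀ hz0 this
  have hx3 : x3 ≤ 1 := by linarith
  have hv3 : v3 ≤ 1 := by linarith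
  have hx31 : x3 = 1 := by nlinarith
  have hx1 : x1 = 0 := by linarith
  have hx2 : x2 = 0 := by linarith
  apply hne
  rw [e1, hx31, hx1, hx2]; simp

end Pool.Agent.H123.SUDG
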