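import Pool.Agent.H123.SUDG.Geom

/-!
# Local part: no nested antipodal pair
-/

set_option autoImplicit false

namespace Pool.Agent.H123.SUDG

/-- A reflexive symmetric relation with antipodes, drawn in the plane such that two edges which can
be joined by two disjoint non-edges do not meet. -/
structure Draw {V : Type} (R : V → V → Prop) (n : V → V) (p : V → ℂ) : Prop where
  refl : ∀ a, R a a
  symm : ∀ a b, R a b → R b a
  neg : ∀ a b, R a b ↔ ¬ R (n a) b
  negneg : ∀ a, n (n a) = a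
  cross : ∀ a b c d, R a b → R c d → ¬ R a c → ¬ R b d →
    ∀ q, Seg (p a) (p b) q → ¬ Seg (p c) (p d) q

namespace Draw

variable {V : Type} {R : V → V → Prop} {n : V → V} {p : V → ℂ} (D : Draw R n p)
include D

theorem nl {a b : V} (h : R a b) : ¬ R (n a) b := (D.neg a b).1 h

theorem nr {a b : V} (h : R a b) : ¬ R a (n b) := fun h' => D.nl (D.symm _ _ h) (D.symm _ _ h')

theorem nn {a b : V} (h : R a b) : R (n a) (n b) := by
  rw [D.neg, D.negneg]
  exact D.nr h

theorem nl' {a b : V} (h : ¬ R a b) : R (n a) b := by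
  by_contra h'
  exact h ((D.neg a b).2 h')

theorem nr' {a b : V} (h : ¬ R a b) : R a (n b) :=
  D.symm _ _ (D.nl' (fun h' => h (D.symm _ _ h')))

theorem nsymm {a b : V} (h : ¬ R a b) : ¬ R b a := fun h' => h (D.symm _ _ h')

theorem off {a b x : V} (hab : R a b) (hxa : ¬ R x a) (hxb : ¬ R x b) :
    ¬ Seg (p a) (p b) (p x) :=
  fun h => D.cross a b x x hab (D.refl x) (D.nsymm hxa) (D.nsymm hxb) _ h (Seg.left _ _)

theorem p_ne {a b : V} (h : ¬ R a b) : p a ≠ p b := by
  intro he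
  refine D.cross a a b b (D.refl a) (D.refl b) h h (p a) (Seg.left _ _) ?_
  rw [he]; exact Seg.left _ _

theorem transfer {a b c x x' : V} (hab : R a b) (hbc : R b c) (hac : R a c) (hxx : R x x')
    (xa : ¬ R x a) (xb : ¬ R x b) (x'b : ¬ R x' b) (x'c : ¬ R x' c)
    (h : Tri (p a) (p b) (p c) (p x)) : Tri (p a) (p b) (p c) (p x') := by
  by_contra hcon
  obtain ⟨q, hq, hq'⟩ := tri_exit h hcon
  rcases hq' with h' | h' | h'
  · exact D.cross a b x x' hab hxx (D.nsymm xa) (D.nsymm x'b) q h' hq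
  · exact D.cross b c x x' hbc hxx (D.nsymm xb) (D.nsymm x'c) q h' hq
  · exact D.cross a c x x' hac hxx (D.nsymm xa) (D.nsymm x'c) q h' hq

/-- the point `n y` is covered by the triangle `a b y` -/
def Col {V : Type} (n : V → V) (p : V → ℂ) (a b y : V) : Prop :=
  Tri (p a) (p b) (p y) (p (n y))

theorem color {a b c y : V} (hab : R a b) (hbc : R b c) (hac : R a c) (ya : R y a) (yb : R y b)
    (yc : R y c) (h : Tri (p a) (p b) (p c) (p (n a))) :
    Col n p a b y ∨ Col n p b c y ∨ Col n p c a y := by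
  have h1 : Tri (p a) (p b) (p c) (p (n y)) :=
    D.transfer hab hbc hac (D.nn (D.symm _ _ ya)) (D.nl (D.refl a)) (D.nl hab) (D.nl yb)
      (D.nl yc) h
  exact tri_cover h1 (p y)

theorem col_clique {a b y z : V} (hab : R a b) (ya : R y a) (yb : R y b) (za : R z a)
    (zb : R z b) (hy : Col n p a b y) (hz : Col n p a b z) : R y z := by
  by_contra hyz
  have hzy : ¬ R z y := D.nsymm hyz
  have wy : Tri (p a) (p b) (p y) (p (n a)) :=
    D.transfer hab (D.symm _ _ yb) (D.symm _ _ ya) (D.nn ya) (D.nl ya) (D.nl yb) (D.nl hab)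
      (D.nl (D.symm _ _ ya)) hy
  have wz : Tri (p a) (p b) (p z) (p (n a)) :=
    D.transfer hab (D.symm _ _ zb) (D.symm _ _ za) (D.nn za) (D.nl za) (D.nl zb) (D.nl hab)
      (D.nl (D.symm _ _ za)) hz
  have aa : ¬ R (n a) a := D.nl (D.refl a)
  have ab' : ¬ R (n a) b := D.nl hab
  have ay' : ¬ R (n a) y := D.nl (D.symm _ _ ya)
  have az' : ¬ R (n a) z := D.nl (D.symm _ _ za)
  refine key_geom hy hz wy wz (D.off hab aa ab') (D.off (D.symm _ _ yb) ab' ay')
    (D.off (D.symm _ _ ya) aa ay') (D.off (D.symm _ _ zb) ab' az')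
    (D.off (D.symm _ _ za) aa az') (D.off hab (D.nl ya) (D.nl yb)) (D.off hab (D.nl za) (D.nl zb))
    ?_ ?_ ?_ ?_ (D.p_ne hyz)
  · intro q hq
    exact D.cross (n z) y b z (D.nl' hzy) (D.symm _ _ zb) (D.nl zb) hyz q hq
  · intro q hq
    exact D.cross (n z) y a z (D.nl' hzy) (D.symm _ _ za) (D.nl za) hyz q hq
  · intro q hq
    exact D.cross (n y) z b y (D.nl' hyz) (D.symm _ _ yb) (D.nl yb) hzy q hq
  · intro q hq
    exact D.cross (n y) z a y (D.nl' hyz) (D.symm _ _ ya) (D.nl ya) hzy q hq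

end Draw

/-- circular distance at least 3 in `ZMod 10` -/
def far10 (i j : Fin 10) : Bool := decide (3 ≤ (i - j).val ∧ (i - j).val ≤ 7)

theorem far10_sub : ∀ S : Finset (Fin 10), 3 < S.card → ∃ i ∈ S, ∃ j ∈ S, far10 i j = true := by
  decide +kernel

theorem no_col10 (f : Fin 10 → Fin 3) : ∃ i j, far10 i j = true ∧ f i = f j := by
  have h : ∃ c : Fin 3, 3 < (Finset.univ.filter (fun i => f i = c)).card := by
    have := Fintype.exists_lt_card_fiber_of_mul_lt_card (f := f) (n := 3) (by simp)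
    exact this
  obtain ⟨c, hc⟩ := h
  obtain ⟨i, hi, j, hj, hij⟩ := far10_sub _ hc
  exact ⟨i, j, hij, (Finset.mem_filter.1 hi).2.trans (Finset.mem_filter.1 hj).2.symm⟩

/-- circular distance at least 2 in `ZMod 7` -/
def far7 (i j : Fin 7) : Bool := decide (2 ≤ (i - j).val ∧ (i - j).val ≤ 5)

theorem far7_sub : ∀ S : Finset (Fin 7), 2 < S.card → ∃ i ∈ S, ∃ j ∈ S, far7 i j = true := by
  decide +kernel

theorem no_col7 (f : Fin 7 → Fin 3) : ∃ i j, far7 i j = true ∧ f i = f j := by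
  have h : ∃ c : Fin 3, 2 < (Finset.univ.filter (fun i => f i = c)).card := by
    have := Fintype.exists_lt_card_fiber_of_mul_lt_card (f := f) (n := 2) (by simp)
    exact this
  obtain ⟨c, hc⟩ := h
  obtain ⟨i, hi, j, hj, hij⟩ := far7_sub _ hc
  exact ⟨i, j, hij, (Finset.mem_filter.1 hi).2.trans (Finset.mem_filter.1 hj).2.symm⟩

theorem Draw.kill7 {V : Type} {R : V → V → Prop} {n : V → V} {p : V → ℂ} (D : Draw R n p)
    {a b c : V} (hab : R a b) (hbc : R b c) (hac : R a c) (y : Fin 7 → V)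
    (ha : ∀ i, R (y i) a) (hb : ∀ i, R (y i) b) (hc : ∀ i, R (y i) c)
    (hy : ∀ i j, far7 i j = true → ¬ R (y i) (y j)) : ¬ Tri (p a) (p b) (p c) (p (n a)) := by
  intro h
  classical
  have hcol : ∀ i, ∃ k : Fin 3, (k = 0 → Draw.Col n p a b (y i)) ∧
      (k = 1 → Draw.Col n p b c (y i)) ∧ (k = 2 → Draw.Col n p c a (y i)) := by
    intro i
    rcases D.color hab hbc hac (ha i) (hb i) (hc i) h with h' | h' | h'
    · exact ⟨0, fun _ => h', fun h0 => absurd h0 (by decide), fun h0 => absurd h0 (by decide)⟩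
    · exact ⟨1, fun h0 => absurd h0 (by decide), fun _ => h', fun h0 => absurd h0 (by decide)⟩
    · exact ⟨2, fun h0 => absurd h0 (by decide), fun h0 => absurd h0 (by decide), fun _ => h'⟩
  choose f hf using hcol
  obtain ⟨i, j, hij, hfij⟩ := no_col7 f
  apply hy i j hij
  have h3 : f i = 0 ∨ f i = 1 ∨ f i = 2 := by
    have : ∀ k : Fin 3, k = 0 ∨ k = 1 ∨ k = 2 := by decide
    exact this _
  rcases h3 with h0 | h0 | h0
  · exact D.col_clique hab (ha i) (hb i) (ha j) (hb j) ((hf i).1 h0) ((hf j).1 (hfij ▸ h0))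
  · exact D.col_clique hbc (hb i) (hc i) (hb j) (hc j) ((hf i).2.1 h0) ((hf j).2.1 (hfij ▸ h0))
  · exact D.col_clique (D.symm _ _ hac) (hc i) (ha i) (hc j) (ha j) ((hf i).2.2 h0)
      ((hf j).2.2 (hfij ▸ h0))

theorem Draw.kill10 {V : Type} {R : V → V → Prop} {n : V → V} {p : V → ℂ} (D : Draw R n p)
    {a b c : V} (hab : R a b) (hbc : R b c) (hac : R a c) (y : Fin 10 → V)
    (ha : ∀ i, R (y i) a) (hb : ∀ i, R (y i) b) (hc : ∀ i, R (y i) c)
    (hy : ∀ i j, far10 i j = true → ¬ R (y i) (y j)) : ¬ Tri (p a) (p b) (p c) (p (n a)) := by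
  intro h
  classical
  have hcol : ∀ i, ∃ k : Fin 3, (k = 0 → Draw.Col n p a b (y i)) ∧
      (k = 1 → Draw.Col n p b c (y i)) ∧ (k = 2 → Draw.Col n p c a (y i)) := by
    intro i
    rcases D.color hab hbc hac (ha i) (hb i) (hc i) h with h' | h' | h'
    · exact ⟨0, fun _ => h', fun h0 => absurd h0 (by decide), fun h0 => absurd h0 (by decide)⟩
    · exact ⟨1, fun h0 => absurd h0 (by decide), fun _ => h', fun h0 => absurd h0 (by decide)⟩
    · exact ⟨2, fun h0 => absurd h0 (by decide), fun h0 => absurd h0 (by decide), fun _ => h'⟩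
  choose f hf using hcol
  obtain ⟨i, j, hij, hfij⟩ := no_col10 f
  apply hy i j hij
  have h3 : f i = 0 ∨ f i = 1 ∨ f i = 2 := by
    have : ∀ k : Fin 3, k = 0 ∨ k = 1 ∨ k = 2 := by decide
    exact this _
  rcases h3 with h0 | h0 | h0
  · exact D.col_clique hab (ha i) (hb i) (ha j) (hb j) ((hf i).1 h0) ((hf j).1 (hfij ▸ h0))
  · exact D.col_clique hbc (hb i) (hc i) (hb j) (hc j) ((hf i).2.1 h0) ((hf j).2.1 (hfij ▸ h0))
  · exact D.col_clique (D.symm _ _ hac) (hc i) (ha i) (hc j) (ha j) ((hf i).2.2 h0)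
      ((hf j).2.2 (hfij ▸ h0))

end Pool.Agent.H123.SUDG
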