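import Pool.Agent.H123.SUDG.Data

/-!
# The acute-angle graph of the 80 directions is not a disk graph
-/

set_option autoImplicit false

namespace Pool.Agent.H123.SUDG

theorem not_tri {p : Fin 80 → ℂ} (D : Draw RR nn p)
    {f : Fin 80 × Fin 80 × Fin 80 × List (Fin 80)} (hf : Good f) :
    ¬ Tri (p f.1) (p f.2.1) (p f.2.2.1) (p (nn f.1)) := by
  obtain ⟨hab, hbc, hac, hy, h | h⟩ := hf
  · obtain ⟨hlen, hfar⟩ := h
    have hm : ∀ i : Fin 7, f.2.2.2.getD i.val 0 ∈ f.2.2.2 := by
      intro i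
      have hi : i.val < f.2.2.2.length := by rw [hlen]; exact i.2
      rw [List.getD_eq_getElem _ _ hi]
      exact List.getElem_mem hi
    exact D.kill7 hab hbc hac (fun i => f.2.2.2.getD i.val 0) (fun i => (hy _ (hm i)).1)
      (fun i => (hy _ (hm i)).2.1) (fun i => (hy _ (hm i)).2.2) hfar
  · obtain ⟨hlen, hfar⟩ := h
    have hm : ∀ i : Fin 10, f.2.2.2.getD i.val 0 ∈ f.2.2.2 := by
      intro i
      have hi : i.val < f.2.2.2.length := by rw [hlen]; exact i.2
      rw [List.getD_eq_getElem _ _ hi]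
      exact List.getElem_mem hi
    exact D.kill10 hab hbc hac (fun i => f.2.2.2.getD i.val 0) (fun i => (hy _ (hm i)).1)
      (fun i => (hy _ (hm i)).2.1) (fun i => (hy _ (hm i)).2.2) hfar

theorem face_zero {p : Fin 80 → ℂ} (D : Draw RR nn p)
    {f : Fin 80 × Fin 80 × Fin 80 × List (Fin 80)} (hf : Good f) :
    E nn p f.1 f.2.1 + E nn p f.2.1 f.2.2.1 - E nn p f.1 f.2.2.1 = 0 := by
  refine D.face_eq hf.1 hf.2.1 hf.2.2.1 ?_
  intro h
  rcases D.nested hf.1 hf.2.1 hf.2.2.1 h with h' | h'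
  · exact not_tri D hf h'
  · have h2 := not_tri D.anti hf
    simp only [nn_nn] at h2
    exact h2 h'

/-- rotation along a pair of lines -/
noncomputable def XX (p : Fin 80 → ℂ) (i j : ℕ) : ℝ :=
  E nn p (Fin.ofNat 80 i) (sd (Fin.ofNat 80 i) (Fin.ofNat 80 j))

theorem ofNat_val (i : Fin 80) : Fin.ofNat 80 i.val = i := by
  apply Fin.ext
  simp

theorem canon {p : Fin 80 → ℂ} (D : Draw RR nn p) {a b : Fin 80} (h : RR a b) :
    E nn p a b = XX p (ln a).val (ln b).val := by
  unfold XX
  rw [ofNat_val, ofNat_val]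
  rcases ln_cases a b h with ⟨h1, h2⟩ | ⟨h1, h2⟩
  · rw [h2, h1]
  · rw [h2, h1, D.E_nn]

theorem no_draw (p : Fin 80 → ℂ) : ¬ Draw RR nn p := by
  intro D
  have H : ∀ t ∈ tris, XX p t.1 t.2.1 + XX p t.2.1 t.2.2 - XX p t.1 t.2.2 = 0 := by
    intro t ht
    rw [← tris_eq] at ht
    obtain ⟨f, hf, rfl⟩ := List.mem_map.1 ht
    have hg := faces_good f hf
    have := face_zero D hg
    rw [canon D hg.1, canon D hg.2.1, canon D hg.2.2.1] at this
    exact this
  have hl := lin (XX p) H
  have hp := D.pathSum_ne (a := 1) (l := [33, 15, 74, 62, 51, 45, 50, 69, 57, 41]) rfl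
  apply hp
  have c1 : E nn p 1 33 = XX p 1 33 := canon D (by decide +kernel)
  have c2 : E nn p 15 33 = XX p 15 33 := canon D (by decide +kernel)
  have c3 : E nn p 15 74 = XX p 15 34 := canon D (by decide +kernel)
  have c4 : E nn p 62 74 = XX p 22 34 := canon D (by decide +kernel)
  have c5 : E nn p 51 62 = XX p 11 22 := canon D (by decide +kernel)
  have c6 : E nn p 45 51 = XX p 5 11 := canon D (by decide +kernel)
  have c7 : E nn p 45 50 = XX p 5 10 := canon D (by decide +kernel)
  have c8 : E nn p 50 69 = XX p 10 29 := canon D (by decide +kernel)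
  have c9 : E nn p 57 69 = XX p 17 29 := canon D (by decide +kernel)
  have c10 : E nn p 41 57 = XX p 1 17 := canon D (by decide +kernel)
  have s2 : E nn p 33 15 = - E nn p 15 33 := D.E_symm (by decide +kernel)
  have s4 : E nn p 74 62 = - E nn p 62 74 := D.E_symm (by decide +kernel)
  have s5 : E nn p 62 51 = - E nn p 51 62 := D.E_symm (by decide +kernel)
  have s6 : E nn p 51 45 = - E nn p 45 51 := D.E_symm (by decide +kernel)
  have s9 : E nn p 69 57 = - E nn p 57 69 := D.E_symm (by decide +kernel)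
  have s10 : E nn p 57 41 = - E nn p 41 57 := D.E_symm (by decide +kernel)
  simp only [Draw.pathSum]
  rw [s2, s4, s5, s6, s9, s10, c1, c2, c3, c4, c5, c6, c7, c8, c9, c10]
  linarith

theorem seg_dist {a b q : ℂ} (h : Seg a b q) : dist a q + dist q b = dist a b := by
  apply dist_add_dist_of_mem_segment
  obtain ⟨t, h0, h1, rfl⟩ := h
  refine ⟨1 - t, t, by linarith, h0, by ring, ?_⟩
  simp only [Complex.real_smul]

/-- a disk representation gives a drawing -/
theorem draw_of_disks (p : Fin 80 → ℂ) (r : Fin 80 → ℝ) (hr : ∀ v, 0 < r v)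
    (h : ∀ u v, u ≠ v → (RR u v ↔ dist (p u) (p v) ≤ r u + r v)) : Draw RR nn p := by
  have h' : ∀ u v, RR u v ↔ dist (p u) (p v) ≤ r u + r v := by
    intro u v
    by_cases huv : u = v
    · rw [huv, dist_self]
      have := hr v
      exact ⟨fun _ => by linarith, fun _ => RR_refl v⟩
    · exact h u v huv
  refine ⟨RR_refl, RR_symm, RR_neg, nn_nn, ?_⟩
  intro a b c d hab hcd hac hbd q h1 h2
  rw [h'] at hab hcd hac hbd
  push Not at hac hbd
  have e1 := seg_dist h1
  have e2 := seg_dist h2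
  have t1 := dist_triangle (p a) q (p c)
  have t2 := dist_triangle (p b) q (p d)
  rw [dist_comm q (p c)] at t1
  rw [dist_comm (p b) q] at t2
  linarith

end Pool.Agent.H123.SUDG
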