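import Pool.Agent.H123.SUDG.Main

/-!
# The acute-angle graph as a graph of spherical disks of radius `π / 4`
-/

set_option autoImplicit false

namespace Pool.Agent.H123.SUDG

open InnerProductGeometry

/-- two spherical disks of radius `π / 4` meet iff their centers are at distance at most `π / 2` -/
theorem quarter {F : Type} [NormedAddCommGroup F] [InnerProductSpace ℝ F] (x y : F)
    (hx : ‖x‖ = 1) (hy : ‖y‖ = 1) :
    (∃ z : F, ‖z‖ = 1 ∧ angle z x ≤ Real.pi / 4 ∧ angle z y ≤ Real.pi / 4) ↔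
      0 ≤ inner ℝ x y := by
  constructor
  · rintro ⟨z, -, h1, h2⟩
    have h3 : angle x y ≤ Real.pi / 2 := by
      have := angle_le_angle_add_angle x z y
      rw [angle_comm x z] at this
      linarith
    unfold angle at h3
    rw [hx, hy, mul_one, div_one] at h3
    exact Real.arccos_le_pi_div_two.1 h3
  · intro hg
    set g := (inner ℝ x y : ℝ) with hgdef
    have hxx : (inner ℝ x x : ℝ) = 1 := by rw [real_inner_self_eq_norm_sq, hx]; norm_num
    have hyy : (inner ℝ y y : ℝ) = 1 := by rw [real_inner_self_eq_norm_sq, hy]; norm_num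
    have hyx : (inner ℝ y x : ℝ) = g := by rw [real_inner_comm]
    have hn2 : ‖x + y‖ ^ 2 = 2 * (1 + g) := by
      rw [← real_inner_self_eq_norm_sq, inner_add_left, inner_add_right, inner_add_right, hxx, hyy,
        hyx, ← hgdef]
      ring
    have hn : 0 < ‖x + y‖ := by
      rcases (norm_nonneg (x + y)).lt_or_eq with h | h
      · exact h
      · rw [← h] at hn2
        nlinarith
    have key : ∀ w : F, ‖w‖ = 1 → (inner ℝ (x + y) w : ℝ) = 1 + g →
        angle (‖x + y‖⁻¹ • (x + y)) w ≤ Real.pi / 4 := by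
      intro w hw hin
      rw [angle_smul_left_of_pos _ _ (inv_pos.2 hn)]
      unfold angle
      rw [hw, mul_one, hin]
      have h4 : Real.pi / 4 = Real.arccos (Real.cos (Real.pi / 4)) := by
        rw [Real.arccos_cos (by positivity) (by linarith [Real.pi_pos])]
      rw [h4]
      apply Real.arccos_le_arccos
      rw [Real.cos_pi_div_four, le_div_iff₀ hn]
      have h5 : (Real.sqrt 2 / 2 * ‖x + y‖) ^ 2 ≤ (1 + g) ^ 2 := by
        rw [mul_pow, hn2, div_pow, Real.sq_sqrt (by norm_num : (0 : ℝ) ≤ 2)]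
        nlinarith
      have h6 : 0 ≤ 1 + g := by linarith
      exact (sq_le_sq₀ (by positivity) h6).1 h5
    refine ⟨‖x + y‖⁻¹ • (x + y), ?_, key x hx ?_, key y hy ?_⟩
    · rw [norm_smul, norm_inv, norm_norm, inv_mul_cancel₀ hn.ne']
    · rw [inner_add_left, hxx, hyx]
    · rw [inner_add_left, hyy, ← hgdef]; ring

/-- an integer vector as a real vector -/
noncomputable def toE (v : ℤ × ℤ × ℤ) : EuclideanSpace ℝ (Fin 3) :=
  !₂[(v.1 : ℝ), (v.2.1 : ℝ), (v.2.2 : ℝ)]

theorem inner_toE (u v : ℤ × ℤ × ℤ) : (inner ℝ (toE u) (toE v) : ℝ) = (dt u v : ℝ) := by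
  unfold toE dt
  rw [PiLp.inner_apply, Fin.sum_univ_three]
  simp
  ring

theorem dt_ne : ∀ i j : Fin 80, dt (vec i) (vec j) ≠ 0 := by decide +kernel

theorem norm_toE_pos (i : Fin 80) : 0 < ‖toE (vec i)‖ := by
  rw [norm_pos_iff]
  intro h
  have h1 := inner_toE (vec i) (vec i)
  rw [h, inner_zero_left] at h1
  exact dt_ne i i (by exact_mod_cast h1.symm)

/-- the centers on the sphere -/
noncomputable def cen (i : Fin 80) : Metric.sphere (0 : EuclideanSpace ℝ (Fin 3)) 1 :=
  ⟨‖toE (vec i)‖⁻¹ • toE (vec i), by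
    rw [mem_sphere_zero_iff_norm, norm_smul, norm_inv, norm_norm,
      inv_mul_cancel₀ (norm_toE_pos i).ne']⟩

theorem RR_iff_cen (i j : Fin 80) :
    RR i j ↔ 0 ≤ (inner ℝ (cen i : EuclideanSpace ℝ (Fin 3)) (cen j) : ℝ) := by
  have h1 : (inner ℝ (cen i : EuclideanSpace ℝ (Fin 3)) (cen j) : ℝ) =
      (‖toE (vec i)‖⁻¹ * ‖toE (vec j)‖⁻¹) * (dt (vec i) (vec j) : ℝ) := by
    unfold cen
    simp only
    rw [real_inner_smul_left, real_inner_smul_right, inner_toE]
    ring
  have h2 : 0 < ‖toE (vec i)‖⁻¹ * ‖toE (vec j)‖⁻¹ :=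
    mul_pos (inv_pos.2 (norm_toE_pos i)) (inv_pos.2 (norm_toE_pos j))
  rw [h1, mul_nonneg_iff_of_pos_left h2]
  unfold RR
  have h3 := dt_ne i j
  constructor
  · intro h
    exact_mod_cast h.le
  · intro h
    have : 0 ≤ dt (vec i) (vec j) := by exact_mod_cast h
    omega

end Pool.Agent.H123.SUDG
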